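import Pool.Agent.TreeMSO.Pull
import Pool.Agent.TreeMSO.Compose

/-!
# Tree-to-tree MSO interpretations are closed under composition

Full positive answer to Q1 of MP_68fe67_lc.
-/

namespace Pool.Agent.Results.MP_68fe67_lc.Composition

open Pool.Agent.TreeMSO

/-- If `f` (trees over `A` to trees over `B`) and `g` (trees over `B` to trees over `C`) are
tree-to-tree MSO interpretations over finite alphabets, then so is `g ∘ f`. -/
theorem result : ∀ (A B C : Type) [Finite A] [Finite B] [Finite C]
    (f : Tr A → Tr B) (g : Tr B → Tr C),
    IsTreeInterp f → IsTreeInterp g → IsTreeInterp (g ∘ f) := by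
  intro A B C _ _ _ f g hf hg
  exact composition_of_pullback (fun I hI _ _ c ψ => pullback I hI c ψ) f g hf hg

end Pool.Agent.Results.MP_68fe67_lc.Composition
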